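import Mathlib
import Pool.Agent.Helper97_PGH.Tower
import Pool.Agent.Helper97_PGH.Fin2
import Pool.Agent.Helper97_PGH.SchemeRel

open CategoryTheory AlgebraicGeometry PGH

universe u

/-!
# Diagonal towers over pseudo-geometrically hyperbolic varieties

`k` is algebraically closed of characteristic zero and `X` is a variety over `k`.  A diagonal step
`F ≤ F'` between subfields of `k(X)` is given by nonzero elements `x 0, …, x (N - 1)` of `F'` such
that `F'` is algebraic over the field generated by `F` and the ratios `x i / x j`, and such that,
for every nonempty proper subset `A` of the indices, there is a diagonal relation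
`∑ i, c i * x i ^ d = 0` with coefficients in `F`, at most `s` of them nonzero, with
`s * (s - 2) < d`, and with nonzero partial sum over `A`.

If `g : X ⟶ Y` is a dominant morphism to an integral `k`-scheme `Y` which is pseudo-geometrically
hyperbolic, and if the function field of `X` is reached from the one of `Y` by finitely many
diagonal steps, then `X` is pseudo-geometrically hyperbolic.  The case `Y = Spec k` is stated
separately.
-/

namespace Pool.Agent.Results.MP_5b1cbc_ag.DiagonalTowers

theorem result {k : Type u} [Field k] [IsAlgClosed k] [CharZero k]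
    {X : Scheme.{u}} (f : X ⟶ Spec (.of k)) [IsIntegral X] [IsSeparated f]
    [LocallyOfFiniteType f] [QuasiCompact f] :
    (Relation.ReflTransGen DiagStep (constants k f).fieldRange ⊤ → IsPGH k f) ∧
    ∀ {Y : Scheme.{u}} (q : Y ⟶ Spec (.of k)) [IsIntegral Y] (g : X ⟶ Y) [IsDominant g],
      g ≫ q = f → IsPGH k q →
      Relation.ReflTransGen DiagStep (pullbackField g).fieldRange ⊤ → IsPGH k f := by
  let _ : Algebra k X.functionField := (constants k f).toAlgebra
  refine ⟨fun h => ?_, fun {Y} q _ g _ hgq hY h => ?_⟩
  · have hgood : ∀ a : X.functionField, GoodEl k (∅ : Set X.functionField) a := fun a =>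
      good_of_tower h (by rintro _ ⟨c, rfl⟩; exact GoodEl.const _ c) a trivial
    refine isPGH_of_fields k f X.functionField (RingEquiv.refl _) (fun c => rfl) ?_
    intro A hA
    obtain ⟨T, hT, hh⟩ := good_main hgood A hA
    refine ⟨T, hT, fun d hd hd0 hTR E _ _ _ P x => ?_⟩
    refine (hh d hd hd0 hTR E P x (fun _ => 0)).subset ?_
    intro φ hφ
    exact ⟨hφ, fun r hr => absurd hr.2 (Set.notMem_empty _)⟩
  · have hgood : ∀ a : X.functionField,
        GoodEl k (Set.range (fun b => RingEquiv.refl _ (pullbackField g b))) a := fun a =>
      good_of_tower h (by rintro _ ⟨b, rfl⟩; exact GoodEl.base ⟨b, rfl⟩) a trivial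
    exact isPGH_of_fields_rel k f q g hgq hY X.functionField (RingEquiv.refl _) (fun c => rfl)
      (good_main hgood)

end Pool.Agent.Results.MP_5b1cbc_ag.DiagonalTowers
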