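import Mathlib
import Pool.Agent.Helper97_PGH.TowerDefs
import Pool.Agent.Helper11_PGL.StepDefs
import Pool.Agent.Helper11_PGL.Asm
import Pool.Agent.Helper11_PGL.Cert
import Pool.Agent.Helper11_PGL.Conv
import Pool.Agent.Helper11_PGL.Hyper

open CategoryTheory AlgebraicGeometry PGH PGL

universe u

/-!
# Towers of linear systems with power values

`k` is algebraically closed of characteristic zero and `X` is a variety over `k`.  A linear system
step `F ≤ F'` between subfields of `k(X)` (see `LinSysStep`) is given by a subfield `V` of `k(X)`
with a set of discrete valuations at which only the constants are regular everywhere (for instance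
the function field of a normal projective variety with its prime divisors), elements `y 0, …, y n`
of `V` and `N ≥ N₀ n` linear forms `L i` over `k`, any `n + 1` of them linearly independent, which
define reduced members of the linear system of the `y j` and take the nonzero values
`u * b i * z i ^ m` with `m ≥ 2` and `b i` in `F`; the field `F'` is algebraic over the field
generated by `F` and the ratios `y i / y j`.  The function `N₀` does not depend on anything.

* If the function field of `X` is reached from `k` by finitely many linear system steps, then `X`
  is pseudo-geometrically hyperbolic.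
* The same holds relatively to a dominant morphism `g : X ⟶ Y` to an integral `k`-scheme which is
  pseudo-geometrically hyperbolic.
* If `x 1, …, x n` are algebraically independent elements of `k(X)` over which `k(X)` is algebraic,
  and if `N ≥ N₀ n` linear forms in linear general position satisfy `L i (1, x) = u * z i ^ m` with
  `m ≥ 2`, then `X` is pseudo-geometrically hyperbolic.
-/

namespace Pool.Agent.Results.MP_5b1cbc_ag.LinearSystemTowers

theorem result : ∃ N₀ : ℕ → ℕ, ∀ {k : Type u} [Field k] [IsAlgClosed k] [CharZero k]
    {X : Scheme.{u}} (f : X ⟶ Spec (.of k)) [IsIntegral X] [IsSeparated f]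
    [LocallyOfFiniteType f] [QuasiCompact f],
    (Relation.ReflTransGen (LinSysStep N₀ (constants k f).fieldRange)
      (constants k f).fieldRange ⊤ → IsPGH k f) ∧
    (∀ {Y : Scheme.{u}} (q : Y ⟶ Spec (.of k)) [IsIntegral Y] (g : X ⟶ Y) [IsDominant g],
      g ≫ q = f → IsPGH k q →
      Relation.ReflTransGen (LinSysStep N₀ (constants k f).fieldRange)
        (pullbackField g).fieldRange ⊤ → IsPGH k f) ∧
    ∀ (n N m : ℕ) (x : Fin n → X.functionField) (L : Fin N → Fin (n + 1) → k)
      (u : X.functionField) (z : Fin N → X.functionField), N₀ n ≤ N → 2 ≤ m →
      (∀ p : MvPolynomial (Fin n) k, MvPolynomial.eval₂ (constants k f) x p = 0 → p = 0) →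
      (∀ s : Finset (Fin N), s.card = n + 1 → LinearIndependent k (fun i : s => L i)) →
      (∀ i, constants k f (L i 0) + ∑ l : Fin n, constants k f (L i l.succ) * x l =
        u * z i ^ m) →
      (∀ a : X.functionField, IsAlgebraic
        (Subfield.closure (((constants k f).fieldRange : Set X.functionField) ∪ Set.range x))
          a) → IsPGH k f :=
  main_of (step_stmt (stepG_stmt (asmT H11.conv) asmK asmS H11.cert H13.dRat) gAlg) (fin2B asmB) gAlg H11.hyper

end Pool.Agent.Results.MP_5b1cbc_ag.LinearSystemTowers
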